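import Mathlib
import Pool.Agent.Helper766.M.Defs
import Pool.Agent.Helper961_mbly.Red
import Pool.Agent.Helper961_mbly.AL
import Pool.Agent.Helper961_mbly.LowE
import Pool.Agent.Helper961_mbly.Avg

set_option autoImplicit false

open MeasureTheory Set
open scoped ENNReal

namespace Pool.Agent.Results.MP_74fe1c_mp.LowEnergy

/-- The `k`-th eigenvalue (counted from `k = 0`, with multiplicity, by the min-max principle on
the form core of `C¹` functions with compact support in `Ω`) of the magnetic Dirichlet Laplacian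
`(-i∇ - A)²` in `Ω`. -/
noncomputable def eig {n : ℕ} (Ω : Set (Fin n → ℝ)) (A : (Fin n → ℝ) → (Fin n → ℝ)) (k : ℕ) :
    ℝ≥0∞ :=
  ⨅ (V : Submodule ℂ ((Fin n → ℝ) → ℂ))
    (_ : ∀ u ∈ V, ContDiff ℝ 1 u ∧ HasCompactSupport u ∧ tsupport u ⊆ Ω)
    (_ : Module.finrank ℂ V = k + 1),
    ⨆ (u : (Fin n → ℝ) → ℂ) (_ : u ∈ V) (_ : u ≠ 0),
      (∫⁻ x, ∑ j : Fin n,
        (‖fderiv ℝ u x (Pi.single j 1) - Complex.I * ((A x j : ℝ) : ℂ) * u x‖₊ : ENNReal) ^ 2)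
          / ∫⁻ x, (‖u x‖₊ : ENNReal) ^ 2

/-- The semiclassical constant `L^cl_{γ,n}`. -/
noncomputable def Lcl (γ : ℝ) (n : ℕ) : ℝ :=
  Real.Gamma (γ + 1) / ((4 * Real.pi) ^ ((n : ℝ) / 2) * Real.Gamma (γ + 1 + (n : ℝ) / 2))

/-- The length of the section of `Ω` by the line through `x` in the direction `e`. -/
noncomputable def chord {n : ℕ} (Ω : Set (Fin n → ℝ)) (e x : Fin n → ℝ) : ℝ≥0∞ :=
  volume {s : ℝ | x + s • e ∈ Ω}

/-- The sharp magnetic Berezin-Li-Yau bound at low energies, for arbitrary magnetic fields. -/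
theorem result {n : ℕ} (hn : 2 ≤ n) (Ω : Set (Fin n → ℝ)) (hΩ : IsOpen Ω)
    (A : (Fin n → ℝ) → (Fin n → ℝ)) (hA : Measurable A)
    (hA2 : LocallyIntegrableOn (fun x => ∑ j : Fin n, (A x j) ^ 2) Ω)
    (γ Λ : ℝ) (hγ : 1 ≤ γ) (hΛ : 0 < Λ)
    -- low energies: `Λ` times the mean square of the section lengths in some direction is at
    -- most 900, or `Λ ρ² ≤ 225` where a ball of radius `ρ` has at least the volume of `Ω`
    (hlow : (∃ e : Fin n → ℝ, ∑ i, e i ^ 2 = 1 ∧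
        ENNReal.ofReal Λ * ∫⁻ x in Ω, chord Ω e x ^ 2 ≤ 900 * volume Ω) ∨
      ∃ ρ : ℝ, 0 < ρ ∧ volume Ω ≤ volume (Metric.ball (0 : EuclideanSpace ℝ (Fin n)) ρ) ∧
        Λ * ρ ^ 2 ≤ 225) :
    ∑' k, (ENNReal.ofReal Λ - eig Ω A k) ^ γ ≤
      ENNReal.ofReal (Lcl γ n) * volume Ω * ENNReal.ofReal Λ ^ (γ + (n : ℝ) / 2) := by
  have hlow' : ∃ e : Fin n → ℝ, ∑ i, e i ^ 2 = 1 ∧
        ENNReal.ofReal Λ * ∫⁻ x in Ω, chord Ω e x ^ 2 ≤ 900 * volume Ω := by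
    rcases hlow with h | ⟨ρ, hρ, hvol, hρΛ⟩
    · exact h
    · obtain ⟨m, rfl⟩ : ∃ m, n = m + 2 := ⟨n - 2, by omega⟩
      obtain ⟨e, he, he'⟩ := Helper961_mbly.avg hΩ.measurableSet hρ hvol
      refine ⟨e, he, ?_⟩
      calc ENNReal.ofReal Λ * ∫⁻ x in Ω, chord Ω e x ^ 2
          ≤ ENNReal.ofReal Λ * (ENNReal.ofReal (4 * ρ ^ 2) * volume Ω) := mul_le_mul' le_rfl he'
        _ = ENNReal.ofReal (Λ * (4 * ρ ^ 2)) * volume Ω := by
          rw [← mul_assoc, ← ENNReal.ofReal_mul hΛ.le]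
        _ ≤ ENNReal.ofReal 900 * volume Ω := by
          refine mul_le_mul' (ENNReal.ofReal_le_ofReal ?_) le_rfl
          linarith
        _ = 900 * volume Ω := by
          have : ENNReal.ofReal (900 : ℝ) = 900 := by norm_num
          rw [this]
  obtain ⟨e, he, hI⟩ := hlow'
  have h1 : ∀ t : ℝ, 0 ≤ t → t < Λ → ∑' k, (ENNReal.ofReal (Λ - t) - eig Ω A k) ≤
      ENNReal.ofReal (Helper766.M.Lcl 1 n) * volume Ω *
        (ENNReal.ofReal Λ - ENNReal.ofReal t) ^ (1 + (n : ℝ) / 2) := by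
    intro t ht htΛ
    refine Helper961_mbly.red Ω hΩ A (Λ - t) (by linarith) _ ?_
    intro N u hu hG _
    rw [← ENNReal.ofReal_sub _ ht]
    refine Helper961_mbly.fam_low hn hΩ hA hA2 he (by linarith) ?_ hu hG
    refine le_trans (mul_le_mul' (ENNReal.ofReal_le_ofReal ?_) le_rfl) hI
    linarith
  exact Helper961_mbly.al_lift n (eig Ω A) hγ Λ _ _ h1

end Pool.Agent.Results.MP_74fe1c_mp.LowEnergy
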