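import Mathlib
import Pool.Agent.Helper766.M.Defs
import Pool.Agent.Helper961_mbly.W
import Pool.Agent.Helper961_mbly.Red
import Pool.Agent.Helper961_mbly.AL
import Pool.Agent.Helper961_mbly.Base
import Pool.Agent.Helper961_mbly.Smear
import Pool.Agent.Helper961_mbly.Top
import Pool.Agent.Helper961_mbly.Rot
import Pool.Agent.Helper961_mbly.Fin

set_option autoImplicit false

open MeasureTheory Set Matrix
open scoped ENNReal

namespace Pool.Agent.Results.MP_74fe1c_mp.WeakField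

/-- The `k`-th eigenvalue (counted from `k = 0`, with multiplicity, by the min-max principle on
the form core of `C¹` functions with compact support in `Ω`) of the magnetic Dirichlet Laplacian
`(-i∇ - A)²` in `Ω`. -/
noncomputable def eig {n : ℕ} (Ω : Set (Fin n → ℝ)) (A : (Fin n → ℝ) → (Fin n → ℝ)) (k : ℕ) :
    ℝ≥0∞ :=
  ⨅ (V : Submodule ℂ ((Fin n → ℝ) → ℂ))
    (_ : ∀ u ∈ V, ContDiff ℝ 1 u ∧ HasCompactSupport u ∧ tsupport u ⊆ Ω)
    (_ : Module.finrank ℂ V = k + 1),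
    ⨆ (u : (Fin n → ℝ) → ℂ) (_ : u ∈ V) (_ : u ≠ 0),
      (∫⁻ x, ∑ j : Fin n,
        (‖fderiv ℝ u x (Pi.single j 1) - Complex.I * ((A x j : ℝ) : ℂ) * u x‖₊ : ENNReal) ^ 2)
          / ∫⁻ x, (‖u x‖₊ : ENNReal) ^ 2

/-- The semiclassical constant `L^cl_{γ,n}`. -/
noncomputable def Lcl (γ : ℝ) (n : ℕ) : ℝ :=
  Real.Gamma (γ + 1) / ((4 * Real.pi) ^ ((n : ℝ) / 2) * Real.Gamma (γ + 1 + (n : ℝ) / 2))

/-- The magnetic Berezin-Li-Yau bound for weak magnetic fields. -/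
theorem result {n : ℕ} (Ω : Set (Fin n → ℝ)) (hΩ : IsOpen Ω) (hfin : volume Ω ≠ ⊤)
    -- the vector potential: a `C¹` field up to the gauge `∇φ`
    (A a : (Fin n → ℝ) → (Fin n → ℝ)) (φ : (Fin n → ℝ) → ℝ)
    (ha : ContDiffOn ℝ 1 a Ω) (hφ : ContDiffOn ℝ 1 φ Ω)
    (hA : ∀ x ∈ Ω, ∀ j, A x j = a x j + fderiv ℝ φ x (Pi.single j 1))
    -- an orthonormal frame (the columns of `R`) and bounds for the gradients of the components
    (R : Matrix (Fin n) (Fin n) ℝ) (hR : R * Rᵀ = 1) (s : Fin n → ℝ) (hs0 : ∀ b, 0 ≤ s b)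
    (hs : ∀ b, ∀ x ∈ Ω,
      ∑ l, (fderiv ℝ (fun y => ∑ m, R m b * a y m) x (Pi.single l 1)) ^ 2 ≤ s b ^ 2)
    -- either `τ = 0`, or `Ω` lies in a slab of width `w` and `τ = 0.26 π² / w²`
    (τ : ℝ) (hτ : τ = 0 ∨ ∃ (e : Fin n → ℝ) (c w : ℝ), ∑ i, e i ^ 2 = 1 ∧ 0 < w ∧
      (∀ x ∈ Ω, c < ∑ i, e i * x i ∧ ∑ i, e i * x i < c + w) ∧
      τ = 26 / 100 * Real.pi ^ 2 / w ^ 2)
    (γ Λ : ℝ) (hγ : 1 ≤ γ) (hΛ : 0 < Λ) :
    ∑' k, (ENNReal.ofReal Λ - eig Ω A k) ^ γ ≤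
      ENNReal.ofReal (Lcl γ n) * volume Ω *
        ENNReal.ofReal (Λ + ∑ b, s b - τ) ^ (γ + (n : ℝ) / 2) := by
  have hcst : ∀ κ : Fin n → ℝ,
      Helper961_mbly.MB n ((fun x => R *ᵥ x) ⁻¹' Ω) (fun _ => κ) (-τ) := by
    intro κ
    rcases hτ with h0 | ⟨e, c, w, he, hw, hslab, h0⟩
    · rw [h0]
      exact Helper961_mbly.MB_const (Helper961_mbly.BL_univ n) (subset_univ _) κ
    · rw [h0]
      refine Helper961_mbly.MB_slab (e := fun l => ∑ m, R m l * e m) (c := c) ?_ hw ?_ κ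
      · rw [Helper961_mbly.rot_real hR, he]
      · intro x hx
        have h1 := hslab _ hx
        have h2 : ∑ i, (∑ m, R m i * e m) * x i = ∑ i, e i * (R *ᵥ x) i := by
          simp only [mulVec, dotProduct, Finset.mul_sum, Finset.sum_mul]
          rw [Finset.sum_comm]
          refine Finset.sum_congr rfl fun m _ => Finset.sum_congr rfl fun i _ => ?_
          ring
        rw [h2]
        exact h1
  have h1 : ∀ t : ℝ, 0 ≤ t → t < Λ → ∑' k, (ENNReal.ofReal (Λ - t) - eig Ω A k) ≤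
      ENNReal.ofReal (Helper766.M.Lcl 1 n) * volume Ω *
        (ENNReal.ofReal (Λ + ∑ b, s b - τ) - ENNReal.ofReal t) ^ (1 + (n : ℝ) / 2) := by
    intro t ht htΛ
    refine Helper961_mbly.red Ω hΩ A (Λ - t) (by linarith) _ ?_
    intro N u hu hG _
    refine (Helper961_mbly.fam_bound hΩ hfin ha hφ hA hR s hs0 hs hcst hu hG (Λ - t)).trans
      (le_of_eq ?_)
    rw [← ENNReal.ofReal_sub _ ht]
    congr 4
    ring
  exact Helper961_mbly.al_lift n (eig Ω A) hγ Λ _ _ h1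

end Pool.Agent.Results.MP_74fe1c_mp.WeakField
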